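import Pool.Agent.W2helper89.EFMain

set_option autoImplicit false
set_option linter.unusedSectionVars false

namespace Pool.Agent.W2helper89.EF

open Module SimpleGraph Finset

variable {V : Type*} [Fintype V] [DecidableEq V] {G : SimpleGraph V} [DecidableRel G.Adj]

/-- `W` can be coloured from the lists -/
def Colable (G : SimpleGraph V) (L : V → Finset ℕ) (W : Finset V) : Prop :=
  ∃ c : V → ℕ, (∀ v ∈ W, c v ∈ L v) ∧ ∀ u ∈ W, ∀ v ∈ W, G.Adj u v → c u ≠ c v

/-- colouring the rest after a set `C` -/
theorem colable_extend (L : V → Finset ℕ) (W C : Finset V) (φ : V → ℕ)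
    (hφ : ∀ v ∈ W \ C, φ v ∈ L v) (hφ' : ∀ u ∈ W \ C, ∀ v ∈ W \ C, G.Adj u v → φ u ≠ φ v)
    (x : V → ℕ) (hx : ∀ u ∈ C, x u ∈ L u \ ((W \ C).filter (G.Adj u)).image φ)
    (hx' : ∀ u ∈ C, ∀ v ∈ C, G.Adj u v → x u ≠ x v) : Colable G L W := by
  have hx1 : ∀ u ∈ C, ∀ v ∈ W \ C, G.Adj u v → x u ≠ φ v := by
    intro u hu v hv huv h
    have h1 := hx u hu
    rw [mem_sdiff, mem_image] at h1
    exact h1.2 ⟨v, mem_filter.2 ⟨hv, huv⟩, h.symm⟩
  refine ⟨fun v => if v ∈ C then x v else φ v, ?_, ?_⟩
  · intro v hv
    by_cases h : v ∈ C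
    · simp only [h, if_true]
      exact (mem_sdiff.1 (hx v h)).1
    · simp only [h, if_false]
      exact hφ v (mem_sdiff.2 ⟨hv, h⟩)
  · intro u hu v hv huv
    by_cases h1 : u ∈ C <;> by_cases h2 : v ∈ C <;> simp only [h1, h2, if_true, if_false]
    · exact hx' u h1 v h2 huv
    · exact hx1 u h1 v (mem_sdiff.2 ⟨hv, h2⟩) huv
    · exact (hx1 v h2 u (mem_sdiff.2 ⟨hu, h1⟩) huv.symm).symm
    · exact hφ' u (mem_sdiff.2 ⟨hu, h1⟩) v (mem_sdiff.2 ⟨hv, h2⟩) huv

theorem colable_all (R : Rotation G) (hR : R.EvenFaced) {g : ℕ} (hg : 1 ≤ g) (hgen : R.GenusLE g)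
    (hN : ∀ (v : V) (p : G.Walk v v), p.IsCycle → ¬ R.Contractible p → 38 * g ≤ p.length)
    (L : V → Finset ℕ) (hL : ∀ v, 4 ≤ #(L v)) (W : Finset V) : Colable G L W := by
  classical
  have htri : ∀ a b c, G.Adj a b → G.Adj b c → G.Adj c a → False := by
    intro a b c hab hbc hca
    have h1 := tri_cycle hab hbc hca
    by_cases h2 : R.Contractible (Walk.cons hab (Walk.cons hbc (Walk.cons hca Walk.nil)))
    · have h3 := contractible_even R hR h2
      simp only [Walk.length_cons, Walk.length_nil] at h3
      exact absurd h3 (by decide)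
    · have h3 := hN _ _ h1 h2
      simp only [Walk.length_cons, Walk.length_nil] at h3
      omega
  induction W using Finset.strongInduction with
  | H W ih =>
    by_contra hcon
    refine core R hR hg hgen hN W ?_ ?_ ?_
    · rw [Finset.nonempty_iff_ne_empty]
      rintro rfl
      exact hcon ⟨fun _ => 0, by simp, by simp⟩
    · intro v hv
      by_contra hlt
      have hlt' : #(W.filter (G.Adj v)) < 4 := by unfold dg at hlt; omega
      obtain ⟨φ, h1, h2⟩ := ih (W \ {v}) (Finset.sdiff_ssubset (by simpa using hv) (by simp))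
      have h3 : ∃ x ∈ L v, x ∉ ((W \ {v}).filter (G.Adj v)).image φ := by
        by_contra hcon2
        push Not at hcon2
        have h4 := card_le_card hcon2
        have h5 : #(((W \ {v}).filter (G.Adj v)).image φ) ≤ #((W \ {v}).filter (G.Adj v)) :=
          card_image_le
        have h6 : #((W \ {v}).filter (G.Adj v)) ≤ #(W.filter (G.Adj v)) :=
          card_le_card (filter_subset_filter _ sdiff_subset)
        have := hL v
        omega
      obtain ⟨x, hx1, hx2⟩ := h3
      refine hcon (colable_extend L W {v} φ h1 h2 (fun _ => x) ?_ ?_)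
      · intro u hu
        rw [mem_singleton] at hu
        subst hu
        exact mem_sdiff.2 ⟨hx1, hx2⟩
      · intro u hu w hw huw
        rw [mem_singleton] at hu hw
        subst hu
        subst hw
        exact absurd huw (G.irrefl)
    · intro a ha b hb c hc d hd hab hbc hcd hda hac hbd
      by_contra hcon2
      push Not at hcon2
      obtain ⟨ga, gb, gc, gd⟩ := hcon2
      have nac : ¬ G.Adj a c := fun h => htri a b c hab hbc h.symm
      have nbd : ¬ G.Adj b d := fun h => htri b c d hbc hcd h.symm
      obtain ⟨φ, h1, h2⟩ := ih (W \ {a, b, c, d}) (Finset.sdiff_ssubset (by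
        intro x hx
        simp only [mem_insert, mem_singleton] at hx
        rcases hx with rfl | rfl | rfl | rfl <;> assumption) (by simp))
      -- the remaining lists have at least two colours
      have hlist : ∀ u y z : V, y ∈ W → z ∈ W → G.Adj u y → G.Adj u z → y ≠ z →
          y ∈ ({a, b, c, d} : Finset V) → z ∈ ({a, b, c, d} : Finset V) → dg G W u < 5 →
          2 ≤ #(L u \ ((W \ {a, b, c, d}).filter (G.Adj u)).image φ) := by
        intro u y z hy hz huy huz hyz hyC hzC hu
        have e1 : (W \ {a, b, c, d}).filter (G.Adj u) ⊆ (W.filter (G.Adj u)) \ {y, z} := by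
          intro w hw
          rw [mem_filter, mem_sdiff] at hw
          rw [mem_sdiff, mem_filter]
          refine ⟨⟨hw.1.1, hw.2⟩, ?_⟩
          intro h
          rw [mem_insert, mem_singleton] at h
          rcases h with rfl | rfl
          · exact hw.1.2 hyC
          · exact hw.1.2 hzC
        have e2 : #((W.filter (G.Adj u)) \ {y, z}) = #(W.filter (G.Adj u)) - 2 := by
          rw [card_sdiff_of_subset, card_pair hyz]
          intro w hw
          rw [mem_insert, mem_singleton] at hw
          rcases hw with rfl | rfl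
          · exact mem_filter.2 ⟨hy, huy⟩
          · exact mem_filter.2 ⟨hz, huz⟩
        have e3 := card_le_card e1
        have e4 : #(((W \ {a, b, c, d}).filter (G.Adj u)).image φ) ≤
          #((W \ {a, b, c, d}).filter (G.Adj u)) := card_image_le
        have e5 := le_card_sdiff (((W \ {a, b, c, d}).filter (G.Adj u)).image φ) (L u)
        have e6 := hL u
        unfold dg at hu
        omega
      obtain ⟨xa, hxa, xb, hxb, xc, hxc, xd, hxd, n1, n2, n3, n4⟩ := four_cycle_lists
        (L a \ ((W \ {a, b, c, d}).filter (G.Adj a)).image φ)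
        (L b \ ((W \ {a, b, c, d}).filter (G.Adj b)).image φ)
        (L c \ ((W \ {a, b, c, d}).filter (G.Adj c)).image φ)
        (L d \ ((W \ {a, b, c, d}).filter (G.Adj d)).image φ)
        (hlist a b d hb hd hab hda.symm hbd (by simp) (by simp) ga)
        (hlist b a c ha hc hab.symm hbc hac (by simp) (by simp) gb)
        (hlist c b d hb hd hbc.symm hcd hbd (by simp) (by simp) gc)
        (hlist d a c ha hc hda hcd.symm hac (by simp) (by simp) gd)
      have nab := hab.ne
      have nbc := hbc.ne
      have ncd := hcd.ne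
      have nda := hda.ne
      let x : V → ℕ := fun v => if v = a then xa else if v = b then xb else if v = c then xc else xd
      have xa' : x a = xa := by simp [x]
      have xb' : x b = xb := by simp [x, nab.symm]
      have xc' : x c = xc := by simp [x, hac.symm, nbc.symm]
      have xd' : x d = xd := by simp [x, nda, hbd.symm, ncd.symm]
      refine hcon (colable_extend L W {a, b, c, d} φ h1 h2 x ?_ ?_)
      · intro u hu
        simp only [mem_insert, mem_singleton] at hu
        rcases hu with rfl | rfl | rfl | rfl
        · rw [xa']; exact hxa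
        · rw [xb']; exact hxb
        · rw [xc']; exact hxc
        · rw [xd']; exact hxd
      · intro u hu w hw huw
        simp only [mem_insert, mem_singleton] at hu hw
        rcases hu with h | h | h | h <;> rcases hw with h' | h' | h' | h' <;> rw [h, h'] at huw ⊢ <;>
          simp only [xa', xb', xc', xd'] <;>
          first
          | exact absurd huw G.irrefl
          | exact absurd huw nac
          | exact absurd huw.symm nac
          | exact absurd huw nbd
          | exact absurd huw.symm nbd
          | exact n1 | exact n1.symm | exact n2 | exact n2.symm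
          | exact n3 | exact n3.symm | exact n4 | exact n4.symm

/-- Locally planar even-faced graphs on orientable surfaces are 4-choosable. -/
theorem four_choosable (g : ℕ) (hg : 1 ≤ g) (V : Type*) [Finite V] (G : SimpleGraph V)
    (R : Rotation G) (hgen : R.GenusLE g) (hR : R.EvenFaced)
    (hN : ∀ (v : V) (p : G.Walk v v), p.IsCycle → ¬ R.Contractible p → 38 * g ≤ p.length)
    (L : V → Finset ℕ) (hL : ∀ v, 4 ≤ (L v).card) :
    ∃ c : V → ℕ, (∀ v, c v ∈ L v) ∧ ∀ u v, G.Adj u v → c u ≠ c v := by
  classical
  have : Fintype V := Fintype.ofFinite V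
  obtain ⟨c, h1, h2⟩ := colable_all R hR hg hgen hN L hL univ
  exact ⟨c, fun v => h1 v (mem_univ v), fun u v => h2 u (mem_univ u) v (mem_univ v)⟩

end Pool.Agent.W2helper89.EF
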