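import Pool.Agent.W2helper89.EFCyc

set_option autoImplicit false
set_option linter.unusedSectionVars false

namespace Pool.Agent.W2helper89.EF

open Module SimpleGraph Finset

section ret

variable {α : Type*} [Finite α] (f : Equiv.Perm α) (P : α → Prop)

theorem ret_ne (q : {a // P a}) {e : α} (he : P e) (hne : e ≠ q.1) (hs : f.SameCycle q.1 e) :
    ret f P q ≠ q := by
  intro h
  have h1 : (f ^ (rt f P q + 1)) q.1 = q.1 := congrArg Subtype.val h
  set n := rt f P q + 1 with hn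
  obtain ⟨i, hi⟩ := hs.exists_nat_pow_eq
  have h2 : ∀ k : ℕ, (f ^ (n * k)) q.1 = q.1 := by
    intro k
    induction k with
    | zero => simp
    | succ k ih => rw [Nat.mul_succ, pow_add, Equiv.Perm.mul_apply, h1, ih]
  have h3 : (f ^ (i % n)) q.1 = e := by
    rw [← hi]
    conv_rhs => rw [← Nat.mod_add_div i n, pow_add, Equiv.Perm.mul_apply, h2]
  have h4 : i % n < n := Nat.mod_lt _ (by omega)
  rcases Nat.eq_zero_or_pos (i % n) with h5 | h5
  · rw [h5] at h3
    exact hne (by simpa using h3.symm)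
  · obtain ⟨j, hj⟩ : ∃ j, i % n = j + 1 := ⟨i % n - 1, by omega⟩
    rw [hj] at h3
    refine rt_min f P q (j := j) (by omega) ?_
    rw [h3]
    exact he

end ret

variable {V : Type*} [Fintype V] [DecidableEq V] {G : SimpleGraph V} [DecidableRel G.Adj]

/-- the darts inside `W` -/
def PW (G : SimpleGraph V) (W : Finset V) (d : G.Dart) : Prop := d.fst ∈ W ∧ d.snd ∈ W

instance (W : Finset V) : DecidablePred (PW G W) := fun _ => inferInstanceAs (Decidable (_ ∧ _))

theorem PW_symm (W : Finset V) (d : G.Dart) (h : PW G W d) : PW G W d.symm := ⟨h.2, h.1⟩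

/-- the degree inside `W` -/
def dg (G : SimpleGraph V) [DecidableRel G.Adj] (W : Finset V) (v : V) : ℕ := #(W.filter (G.Adj v))

theorem sum_darts (W : Finset V) (φ : V → ℕ) :
    ∑ q : {d : G.Dart // PW G W d}, φ q.1.fst = ∑ v ∈ W, dg G W v * φ v := by
  rw [← Finset.sum_fiberwise_of_maps_to (s := univ) (t := W)
    (g := fun q : {d : G.Dart // PW G W d} => q.1.fst) (fun q _ => q.2.1)]
  refine Finset.sum_congr rfl fun v hv => ?_
  have h1 : ∀ q ∈ univ.filter (fun q : {d : G.Dart // PW G W d} => q.1.fst = v),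
      φ q.1.fst = φ v := by
    intro q hq
    rw [(mem_filter.1 hq).2]
  rw [Finset.sum_congr rfl h1, Finset.sum_const, smul_eq_mul]
  congr 1
  refine Finset.card_bij (fun q _ => q.1.snd) ?_ ?_ ?_
  · intro q hq
    rw [mem_filter]
    refine ⟨q.2.2, ?_⟩
    rw [← (mem_filter.1 hq).2]
    exact q.1.adj
  · intro q hq q' hq' h
    have e1 := (mem_filter.1 hq).2
    have e2 := (mem_filter.1 hq').2
    exact Subtype.ext (Dart.ext _ _ (Prod.ext (e1.trans e2.symm) h))
  · intro w hw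
    rw [mem_filter] at hw
    exact ⟨⟨⟨(v, w), hw.2⟩, hv, hw.1⟩, by simp, rfl⟩

variable (R : Rotation G) (W : Finset V)

/-- the face permutation inside `W` -/
noncomputable def fW : Equiv.Perm {d : G.Dart // PW G W d} := faceP R (PW G W) (PW_symm W)

theorem fW_fst (q : {d : G.Dart // PW G W d}) : (fW R W q).1.fst = q.1.snd := faceP_fst _ _ _ _

theorem fW_snd_ne (hdeg : ∀ v ∈ W, 4 ≤ dg G W v) (q : {d : G.Dart // PW G W d}) :
    (fW R W q).1.snd ≠ q.1.fst := by
  intro h
  have h1 : fW R W q = sQ (PW G W) (PW_symm W) q := by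
    refine Subtype.ext (Dart.ext _ _ (Prod.ext ?_ ?_))
    · exact fW_fst R W q
    · exact h
  have h2 : ret R.next (PW G W) (sQ (PW G W) (PW_symm W) q) = sQ (PW G W) (PW_symm W) q := h1
  have h3 : ∃ w ∈ W.filter (G.Adj q.1.snd), w ≠ q.1.fst := by
    have h4 := hdeg q.1.snd q.2.2
    exact Finset.exists_mem_ne (by unfold dg at h4; omega) _
  obtain ⟨w, hw, hne⟩ := h3
  rw [mem_filter] at hw
  refine ret_ne R.next (PW G W) (sQ (PW G W) (PW_symm W) q) (e := ⟨(q.1.snd, w), hw.2⟩)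
    ⟨q.2.2, hw.1⟩ ?_ ?_ h2
  · intro h5
    apply hne
    exact congrArg (fun d : G.Dart => d.snd) h5
  · rw [R.sameCycle_iff]
    rfl

section orbits

variable (hdeg : ∀ v ∈ W, 4 ≤ dg G W v)
  (htri : ∀ a b c, G.Adj a b → G.Adj b c → G.Adj c a → False)

include hdeg htri

/-- the first five darts of a facial walk -/
theorem orbit_facts (q : {d : G.Dart // PW G W d}) :
    ∃ v : ℕ → V, (∀ i, ((fW R W ^ i) q).1.fst = v i) ∧ (∀ i, v i ∈ W) ∧
      (∀ i, G.Adj (v i) (v (i + 1))) ∧ (∀ i, v (i + 2) ≠ v i) ∧ ∀ i, v (i + 3) ≠ v i := by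
  refine ⟨fun i => ((fW R W ^ i) q).1.fst, fun i => rfl, fun i => ((fW R W ^ i) q).2.1, ?_, ?_, ?_⟩
  · intro i
    have h1 : ((fW R W ^ (i + 1)) q).1.fst = ((fW R W ^ i) q).1.snd := by
      rw [pow_succ', Equiv.Perm.mul_apply, fW_fst]
    simp only
    rw [h1]
    exact ((fW R W ^ i) q).1.adj
  · intro i h
    have h1 : ((fW R W ^ (i + 2)) q).1.fst = (fW R W ((fW R W ^ i) q)).1.snd := by
      rw [pow_succ', Equiv.Perm.mul_apply, fW_fst, pow_succ', Equiv.Perm.mul_apply]
    simp only at h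
    rw [h1] at h
    exact fW_snd_ne R W hdeg _ h
  · intro i h
    have ha : ∀ j, G.Adj ((fW R W ^ j) q).1.fst ((fW R W ^ (j + 1)) q).1.fst := by
      intro j
      have h1 : ((fW R W ^ (j + 1)) q).1.fst = ((fW R W ^ j) q).1.snd := by
        rw [pow_succ', Equiv.Perm.mul_apply, fW_fst]
      rw [h1]
      exact ((fW R W ^ j) q).1.adj
    simp only at h
    have h3 := ha (i + 2)
    rw [h] at h3
    exact htri _ _ _ (ha i) (ha (i + 1)) h3

end orbits

end Pool.Agent.W2helper89.EF
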