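import Pool.Agent.W2helper89.EFWalk

set_option autoImplicit false
set_option linter.unusedSectionVars false

namespace Pool.Agent.W2helper89.EF

open Module SimpleGraph Finset

variable {V : Type*} [Fintype V] [DecidableEq V] {G : SimpleGraph V} [DecidableRel G.Adj]

/-- the graph of the edges of a set of edges -/
def supG (z : G.Dart → kk) (hz : z ∈ C1 G) : SimpleGraph V where
  Adj u v := ∃ h : G.Adj u v, z ⟨(u, v), h⟩ ≠ 0
  symm := ⟨by
    rintro u v ⟨h, h1⟩
    refine ⟨h.symm, ?_⟩
    have := hz ⟨(u, v), h⟩
    intro h2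
    apply h1
    rw [← this]
    exact h2⟩
  loopless := ⟨by
    rintro u ⟨h, -⟩
    exact h.ne rfl⟩

theorem supG_le (z : G.Dart → kk) (hz : z ∈ C1 G) : supG z hz ≤ G := by
  rintro u v ⟨h, -⟩
  exact h

theorem supG_adj (z : G.Dart → kk) (hz : z ∈ C1 G) (d : G.Dart) :
    (supG z hz).Adj d.fst d.snd ↔ z d ≠ 0 := by
  constructor
  · rintro ⟨_, h⟩; exact h
  · intro h; exact ⟨d.adj, h⟩

theorem sum_d1 (z : G.Dart → kk) (S : Finset V) :
    ∑ x ∈ S, d1 G z x = ∑ d ∈ univ.filter (fun d : G.Dart => d.fst ∈ S), z d := by
  simp only [d1_apply, Finset.sum_filter]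
  rw [Finset.sum_comm]
  refine Finset.sum_congr rfl fun d _ => ?_
  rw [Finset.sum_ite_eq]

/-- an edge of an even set of edges is in a cycle -/
theorem exists_cycle_of_even (z : G.Dart → kk) (hz : z ∈ Zc G) (d0 : G.Dart) (h0 : z d0 ≠ 0) :
    ∃ (u : V) (p : G.Walk u u), p.IsCycle ∧ (∀ d ∈ p.darts, z d ≠ 0) ∧ d0.edge ∈ p.edges := by
  classical
  set Γ := supG z hz.1 with hΓ
  have hadj : Γ.Adj d0.fst d0.snd := (supG_adj z hz.1 d0).2 h0
  have hreach : (Γ.deleteEdges {s(d0.fst, d0.snd)}).Reachable d0.fst d0.snd := by
    by_contra hcon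
    set Γ' := Γ.deleteEdges {s(d0.fst, d0.snd)} with hΓ'
    let S : Finset V := univ.filter fun x => Γ'.Reachable d0.fst x
    have hS : ∀ x, x ∈ S ↔ Γ'.Reachable d0.fst x := by intro x; simp [S]
    have e1 : ∑ x ∈ S, d1 G z x = 0 := by
      refine Finset.sum_eq_zero fun x _ => ?_
      rw [LinearMap.mem_ker.1 hz.2]
      rfl
    have e2 := sum_d1 z S
    have e3 : ∑ d ∈ (univ.filter (fun d : G.Dart => d.fst ∈ S)).filter (fun d => d.snd ∈ S), z d
        = 0 := by
      refine Finset.sum_involution (fun d _ => d.symm) ?_ ?_ ?_ ?_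
      · intro d _
        rw [hz.1 d, kk_add_self]
      · intro d _ _
        exact d.symm_ne
      · intro d hd
        simp only [mem_filter, mem_univ, true_and] at hd ⊢
        exact ⟨hd.2, hd.1⟩
      · intro d _
        exact d.symm_symm
    have e4 : ∑ d ∈ (univ.filter (fun d : G.Dart => d.fst ∈ S)).filter (fun d => ¬ d.snd ∈ S), z d
        = z d0 := by
      refine Finset.sum_eq_single d0 ?_ ?_
      · intro d hd hne
        by_contra hzd
        simp only [mem_filter, mem_univ, true_and, hS] at hd
        apply hd.2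
        refine hd.1.trans (SimpleGraph.Adj.reachable ?_)
        rw [hΓ', deleteEdges_adj]
        refine ⟨(supG_adj z hz.1 d).2 hzd, ?_⟩
        rw [Set.mem_singleton_iff]
        intro h5
        have h6 : d.edge = d0.edge := h5
        rcases (dart_edge_eq_iff d d0).1 h6 with h7 | h7
        · exact hne h7
        · apply hcon
          have h8 := hd.1
          rw [h7] at h8
          exact h8
      · intro h5
        exfalso
        apply h5
        simp only [mem_filter, mem_univ, true_and, hS]
        exact ⟨Reachable.refl _, hcon⟩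
    have e5 := Finset.sum_filter_add_sum_filter_not (univ.filter (fun d : G.Dart => d.fst ∈ S))
      (fun d => d.snd ∈ S) z
    rw [e3, e4, ← e2, e1, zero_add] at e5
    exact h0 e5
  obtain ⟨u, p, hp, hmem⟩ := adj_and_reachable_delete_edges_iff_exists_cycle.1 ⟨hadj, hreach⟩
  refine ⟨u, p.mapLe (supG_le z hz.1), hp.mapLe _, ?_, ?_⟩
  · intro d hd
    have h1 : d.edge ∈ (p.mapLe (supG_le z hz.1)).edges := List.mem_map_of_mem hd
    rw [Walk.edges_mapLe_eq_edges] at h1
    have h2 := p.edges_subset_edgeSet h1
    exact (supG_adj z hz.1 d).1 h2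
  · rw [Walk.edges_mapLe_eq_edges]
    exact hmem

theorem Zc_le_range (R : Rotation G) (P : G.Dart → Prop)
    (hcyc : ∀ (v : V) (p : G.Walk v v), p.IsCycle → (∀ d ∈ p.darts, P d) →
      vec p ∈ LinearMap.range (d2 R)) : Zc G ⊓ Sup P ≤ LinearMap.range (d2 R) := by
  classical
  have key : ∀ n : ℕ, ∀ z ∈ Zc G ⊓ Sup P, #(univ.filter fun d => z d ≠ 0) = n →
      z ∈ LinearMap.range (d2 R) := by
    intro n
    induction n using Nat.strong_induction_on with
    | _ n ih =>
      intro z hz hn
      by_cases h0 : ∃ d0, z d0 ≠ 0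
      · obtain ⟨d0, h0⟩ := h0
        obtain ⟨u, p, hp, hd, hmem⟩ := exists_cycle_of_even z hz.1 d0 h0
        have hP : ∀ d ∈ p.darts, P d := by
          intro d hd'
          by_contra hcon
          exact hd d hd' (hz.2 d hcon)
        have hv := hcyc u p hp hP
        have hzero : ∀ d, z d = 0 → vec p d = 0 := by
          intro d hzd
          have h1 : d.edge ∉ p.edges := by
            intro h2
            obtain ⟨e, he, hee⟩ := List.mem_map.1 h2
            rcases (dart_edge_eq_iff e d).1 hee with h3 | h3
            · exact hd e he (h3 ▸ hzd)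
            · apply hd e he
              rw [h3, hz.1.1 d, hzd]
          simp only [vec]
          rw [List.count_eq_zero.2 h1]
          rfl
        have hone : vec p d0 = 1 := by
          simp only [vec]
          rw [List.count_eq_one_of_mem hp.edges_nodup hmem]
          rfl
        have hz' : z + vec p ∈ Zc G ⊓ Sup P := by
          refine ⟨add_mem hz.1 (vec_mem_Zc p), ?_⟩
          intro d hdP
          rw [Pi.add_apply, hz.2 d hdP, hzero d (hz.2 d hdP), add_zero]
        have hlt : #(univ.filter fun d => (z + vec p) d ≠ 0) < n := by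
          rw [← hn]
          refine Finset.card_lt_card ?_
          rw [Finset.ssubset_iff_of_subset]
          · refine ⟨d0, by simpa using h0, ?_⟩
            simp only [mem_filter, mem_univ, true_and, not_not, Pi.add_apply]
            rw [hone, kk_ne_zero h0]
            rfl
          · intro d
            simp only [mem_filter, mem_univ, true_and]
            intro h1 h2
            apply h1
            rw [Pi.add_apply, h2, hzero d h2, add_zero]
        have h1 := ih _ hlt _ hz' rfl
        have h2 := add_mem h1 hv
        have h3 : z + vec p + vec p = z := by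
          rw [add_assoc, fun_add_self, add_zero]
        rwa [h3] at h2
      · push Not at h0
        have : z = 0 := by ext d; exact h0 d
        rw [this]
        exact zero_mem _
  intro z hz
  exact key _ z hz rfl

end Pool.Agent.W2helper89.EF
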