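import Mathlib

/-!
# Even-faced graphs on orientable surfaces: combinatorial embeddings

A finite graph embedded in an orientable surface is described by its rotation system: at every
vertex the darts (oriented edges) leaving it are ordered cyclically.
-/

set_option autoImplicit false

namespace Pool.Agent.W2helper89.EF

open SimpleGraph

variable {V : Type*} {G : SimpleGraph V}

/-- A rotation system of `G`: a permutation `next` of the darts (oriented edges) of `G` whose
cycles are exactly the sets of darts with the same starting vertex. -/
structure Rotation (G : SimpleGraph V) where
  /-- the next dart in the cyclic order at the starting vertex -/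
  next : Equiv.Perm G.Dart
  /-- two darts are in one cycle of `next` iff they start at the same vertex -/
  sameCycle_iff : ∀ d e : G.Dart, next.SameCycle d e ↔ d.fst = e.fst

namespace Rotation

/-- The face permutation: after the dart `d` from `u` to `v` comes the dart that follows the
reverse of `d` in the cyclic order at `v`. Its cycles are the facial boundary walks. -/
def face (R : Rotation G) : Equiv.Perm G.Dart :=
  (Function.Involutive.toPerm Dart.symm Dart.symm_involutive).trans R.next

/-- The facial boundary walks. -/
abbrev Face (R : Rotation G) : Type _ := Quotient (Equiv.Perm.SameCycle.setoid R.face)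

/-- The total genus (the sum of the genera of the components) of the rotation system is at most
`g`: `V - E + F ≥ 2 c - 2 g`, where `F` is the number of faces (an isolated vertex has one face)
and `c` the number of components. -/
def GenusLE (R : Rotation G) (g : ℕ) : Prop :=
  2 * Nat.card G.ConnectedComponent + Nat.card G.edgeSet ≤
    Nat.card V + (Nat.card R.Face + Nat.card {v : V // ∀ w, ¬ G.Adj v w}) + 2 * g

/-- All facial boundary walks have even length. -/
def EvenFaced (R : Rotation G) : Prop := ∀ d : G.Dart, Even (Function.minimalPeriod R.face d)

/-- Homotopy of walks with fixed ends in the surface: the congruence generated by deleting a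
backtracking `u v u` and by deleting a facial boundary walk. -/
inductive Homotopic (R : Rotation G) : ∀ {u v : V}, G.Walk u v → G.Walk u v → Prop
  | refl {u v : V} (p : G.Walk u v) : Homotopic R p p
  | symm {u v : V} {p q : G.Walk u v} : Homotopic R p q → Homotopic R q p
  | trans {u v : V} {p q r : G.Walk u v} : Homotopic R p q → Homotopic R q r → Homotopic R p r
  | append {u v w : V} {p p' : G.Walk u v} {q q' : G.Walk v w} :
      Homotopic R p p' → Homotopic R q q' → Homotopic R (p.append q) (p'.append q')
  | spur {u v : V} (h : G.Adj u v) : Homotopic R (Walk.cons h (Walk.cons h.symm Walk.nil)) Walk.nil
  | facial {v : V} (p : G.Walk v v) (d : G.Dart)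
      (hp : p.darts = List.iterate R.face d (Function.minimalPeriod R.face d)) :
      Homotopic R p Walk.nil

/-- The closed walk `p` is contractible. -/
def Contractible (R : Rotation G) {v : V} (p : G.Walk v v) : Prop := R.Homotopic p Walk.nil

end Rotation

end Pool.Agent.W2helper89.EF
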