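import Pool.Agent.W2helper89.EFHom

set_option autoImplicit false
set_option linter.unusedSectionVars false

namespace Pool.Agent.W2helper89.EF

open Module SimpleGraph Finset

variable {V : Type*} [Fintype V] [DecidableEq V] {G : SimpleGraph V} [DecidableRel G.Adj]

/-- `u + v` is a boundary for every edge `uv` -/
theorem single_add_mem {u v : V} (h : G.Adj u v) :
    (Pi.single u 1 + Pi.single v 1 : V → kk) ∈ (C1 G).map (d1 G) := by
  refine ⟨Pi.single (⟨(u, v), h⟩ : G.Dart) 1 + Pi.single (⟨(v, u), h.symm⟩ : G.Dart) 1, ?_, ?_⟩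
  · intro d
    have e1 : ∀ d : G.Dart, d.symm = ⟨(u, v), h⟩ ↔ d = ⟨(v, u), h.symm⟩ := by
      intro d
      constructor
      · intro h1; rw [← Dart.symm_symm d, h1]; rfl
      · rintro rfl; rfl
    have e2 : ∀ d : G.Dart, d.symm = ⟨(v, u), h.symm⟩ ↔ d = ⟨(u, v), h⟩ := by
      intro d
      constructor
      · intro h1; rw [← Dart.symm_symm d, h1]; rfl
      · rintro rfl; rfl
    simp only [Pi.add_apply, Pi.single_apply]
    rw [if_congr (e1 d) rfl rfl, if_congr (e2 d) rfl rfl, add_comm]
  · rw [map_add, d1_single, d1_single]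

theorem mem_of_reachable (M : Submodule kk (V → kk)) (hM : (C1 G).map (d1 G) ≤ M) {u v : V}
    (h : G.Reachable u v) (hu : (Pi.single u 1 : V → kk) ∈ M) : (Pi.single v 1 : V → kk) ∈ M := by
  obtain ⟨p⟩ := h
  induction p with
  | nil => exact hu
  | @cons a b c hab _ ih =>
    apply ih
    have h1 := hM (single_add_mem hab)
    have h2 := M.sub_mem h1 hu
    simpa using h2

theorem Z_bound : finrank kk (Zc G) + Fintype.card V ≤
    finrank kk (C1 G) + Nat.card G.ConnectedComponent := by
  classical
  have : Fintype G.ConnectedComponent := Fintype.ofFinite _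
  rw [Nat.card_eq_fintype_card]
  let b : G.ConnectedComponent → (V → kk) := fun c => Pi.single (Quot.out c) 1
  let M : Submodule kk (V → kk) := (C1 G).map (d1 G) ⊔ Submodule.span kk (Set.range b)
  have hM : M = ⊤ := by
    rw [eq_top_iff]
    have hs : ∀ v : V, (Pi.single v 1 : V → kk) ∈ M := by
      intro v
      refine mem_of_reachable (G := G) M le_sup_left (u := Quot.out (G.connectedComponentMk v)) ?_ ?_
      · exact ConnectedComponent.exact (Quot.out_eq (G.connectedComponentMk v))
      · exact Submodule.mem_sup_right (Submodule.subset_span ⟨_, rfl⟩)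
    intro y _
    rw [pi_eq_sum_univ' y]
    refine Submodule.sum_mem _ fun v _ => ?_
    refine Submodule.smul_mem _ _ ?_
    convert hs v using 1
  have h1 := Submodule.finrank_add_le_finrank_add_finrank ((C1 G).map (d1 G))
    (Submodule.span kk (Set.range b))
  have h2 : finrank kk (Submodule.span kk (Set.range b)) ≤ Fintype.card G.ConnectedComponent :=
    finrank_range_le_card b
  have h3 : finrank kk M = Fintype.card V := by
    rw [hM, finrank_top, Module.finrank_fintype_fun_eq_card]
  have h4 := rn (d1 G) (C1 G)
  have h5 : finrank kk (Zc G) = finrank kk (C1 G ⊓ LinearMap.ker (d1 G) : Submodule kk _) := rfl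
  have h6 : finrank kk M = finrank kk
    ((C1 G).map (d1 G) ⊔ Submodule.span kk (Set.range b) : Submodule kk _) := rfl
  omega

/-- an element of the kernel of `d2` is constant on components -/
theorem ker_const (R : Rotation G) {X : R.Face → kk} (hX : d2 R X = 0) {u v : V}
    (h : G.Reachable u v) : ∀ d e : G.Dart, d.fst = u → e.fst = v → X (fc R d) = X (fc R e) := by
  have hs : ∀ d : G.Dart, X (fc R d.symm) = X (fc R d) := by
    intro d
    have h1 := congrFun hX d
    rw [d2_apply, add_comm] at h1
    exact kk_eq_of_add _ _ h1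
  have hv : ∀ d e : G.Dart, d.fst = e.fst → X (fc R d) = X (fc R e) := by
    intro d e hde
    exact inv_same R.next (fun d => X (fc R d)) (fun d => by rw [fc_next, hs])
      ((R.sameCycle_iff d e).2 hde)
  obtain ⟨p⟩ := h
  induction p with
  | nil => intro d e hd he; exact hv d e (hd.trans he.symm)
  | @cons a b c hab _ ih =>
    intro d e hd he
    rw [hv d ⟨(a, b), hab⟩ hd, ← hs]
    exact ih _ e rfl he

theorem exists_dart_of_reachable {u v : V} (h : G.Reachable u v) (hu : ∃ w, G.Adj u w) :
    ∃ w, G.Adj v w := by
  obtain ⟨p⟩ := h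
  induction p with
  | nil => exact hu
  | cons hab _ ih => exact ih ⟨_, hab.symm⟩

theorem isolated_reach {u v : V} (hv : ∀ w, ¬ G.Adj v w) (h : G.Reachable v u) : u = v := by
  obtain ⟨p⟩ := h
  cases p with
  | nil => rfl
  | cons h _ => exact absurd h (hv _)

theorem kerd2_bound (R : Rotation G) : finrank kk (LinearMap.ker (d2 R)) +
    Nat.card {v : V // ∀ w, ¬ G.Adj v w} ≤ Nat.card G.ConnectedComponent := by
  classical
  have : Fintype G.ConnectedComponent := Fintype.ofFinite _
  let A := {c : G.ConnectedComponent // ∃ w, G.Adj (Quot.out c) w}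
  let B := {c : G.ConnectedComponent // ¬ ∃ w, G.Adj (Quot.out c) w}
  have hAB : Nat.card G.ConnectedComponent = Fintype.card A + Fintype.card B := by
    rw [Nat.card_eq_fintype_card]
    have h1 := Fintype.card_subtype_compl fun c : G.ConnectedComponent =>
      ∃ w, G.Adj (Quot.out c) w
    have h2 := Fintype.card_subtype_le fun c : G.ConnectedComponent =>
      ∃ w, G.Adj (Quot.out c) w
    show Fintype.card G.ConnectedComponent = Fintype.card A + Fintype.card B
    simp only [A, B]
    omega
  have hB : Nat.card {v : V // ∀ w, ¬ G.Adj v w} ≤ Fintype.card B := by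
    rw [← Nat.card_eq_fintype_card]
    have hout : ∀ v : V, (∀ w, ¬ G.Adj v w) → Quot.out (G.connectedComponentMk v) = v := by
      intro v hv
      have h1 : G.Reachable (Quot.out (G.connectedComponentMk v)) v :=
        ConnectedComponent.exact (Quot.out_eq (G.connectedComponentMk v))
      exact isolated_reach hv h1.symm
    refine Nat.card_le_card_of_injective
      (fun v => (⟨G.connectedComponentMk v.1, ?_⟩ : B)) ?_
    · rw [hout v.1 v.2]
      rintro ⟨w, hw⟩
      exact v.2 w hw
    · rintro ⟨v, hv⟩ ⟨w, hw⟩ h
      have h1 := congrArg Subtype.val h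
      simp only at h1
      have h2 : v = w := by
        calc v = Quot.out (G.connectedComponentMk v) := (hout v hv).symm
          _ = Quot.out (G.connectedComponentMk w) := by rw [h1]
          _ = w := hout w hw
      exact Subtype.ext h2
  have hA : finrank kk (LinearMap.ker (d2 R)) ≤ Fintype.card A := by
    rw [← Module.finrank_fintype_fun_eq_card kk]
    let δ : A → G.Dart := fun c => ⟨(Quot.out c.1, c.2.choose), c.2.choose_spec⟩
    let F : (R.Face → kk) →ₗ[kk] (A → kk) := LinearMap.funLeft kk kk fun c => fc R (δ c)
    refine LinearMap.finrank_le_finrank_of_injective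
      (f := F.domRestrict (LinearMap.ker (d2 R))) ?_
    rintro ⟨X, hX⟩ ⟨Y, hY⟩ h
    have h1 : F X = F Y := h
    ext f
    induction f using Quotient.inductionOn with
    | h d =>
      show X (fc R d) = Y (fc R d)
      have hr : G.Reachable d.fst (Quot.out (G.connectedComponentMk d.fst)) :=
        (ConnectedComponent.exact (Quot.out_eq (G.connectedComponentMk d.fst))).symm
      have hex := exists_dart_of_reachable hr ⟨d.snd, d.adj⟩
      let c : A := ⟨G.connectedComponentMk d.fst, hex⟩
      have h2 := congrFun h1 c
      simp only [F, LinearMap.funLeft_apply] at h2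
      rw [ker_const R hX hr d (δ c) rfl rfl, ker_const R hY hr d (δ c) rfl rfl]
      exact h2
  omega

theorem genus_bound (R : Rotation G) {g : ℕ} (hg : R.GenusLE g) :
    finrank kk (Zc G) ≤ finrank kk (LinearMap.range (d2 R)) + 2 * g := by
  classical
  have h1 := Z_bound (G := G)
  have h2 := kerd2_bound R
  have h3 := LinearMap.finrank_range_add_finrank_ker (d2 R)
  have : Fintype R.Face := Fintype.ofFinite _
  rw [Module.finrank_fintype_fun_eq_card] at h3
  have h4 := finrank_C1_le (G := G)
  rw [G.dart_card_eq_twice_card_edges] at h4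
  have h5 : Nat.card G.edgeSet = #G.edgeFinset := by
    rw [Nat.card_eq_fintype_card, edgeFinset_card]
  unfold Rotation.GenusLE at hg
  rw [Nat.card_eq_fintype_card (α := V), Nat.card_eq_fintype_card (α := R.Face), h5] at hg
  omega

end Pool.Agent.W2helper89.EF
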