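import Pool.Agent.W2helper89.EFLin

set_option autoImplicit false
set_option linter.unusedSectionVars false

namespace Pool.Agent.W2helper89.EF

open Module SimpleGraph Finset

variable {V : Type*} [Fintype V] [DecidableEq V] {G : SimpleGraph V} [DecidableRel G.Adj]

/-- the face containing a dart -/
def fc (R : Rotation G) (d : G.Dart) : R.Face := Quotient.mk _ d

theorem fc_eq_iff (R : Rotation G) (d e : G.Dart) : fc R d = fc R e ↔ R.face.SameCycle d e :=
  Quotient.eq (r := Equiv.Perm.SameCycle.setoid R.face)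

theorem fc_face (R : Rotation G) (d : G.Dart) : fc R (R.face d) = fc R d := by
  rw [fc_eq_iff]
  exact Equiv.Perm.sameCycle_apply_left.2 (Equiv.Perm.SameCycle.refl _ _)

theorem face_apply (R : Rotation G) (d : G.Dart) : R.face d = R.next d.symm := rfl

theorem fc_next (R : Rotation G) (d : G.Dart) : fc R (R.next d) = fc R d.symm := by
  have := fc_face R d.symm
  rwa [face_apply, Dart.symm_symm] at this

theorem next_fst (R : Rotation G) (d : G.Dart) : (R.next d).fst = d.fst := by
  rw [← R.sameCycle_iff]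
  exact Equiv.Perm.sameCycle_apply_left.2 (Equiv.Perm.SameCycle.refl _ _)

theorem face_fst (R : Rotation G) (d : G.Dart) : (R.face d).fst = d.snd := by
  rw [face_apply, next_fst]; rfl

/-- the boundary of a set of faces -/
def d2 (R : Rotation G) : (R.Face → kk) →ₗ[kk] (G.Dart → kk) :=
  LinearMap.funLeft kk kk (fun d => fc R d) + LinearMap.funLeft kk kk (fun d => fc R d.symm)

theorem d2_apply (R : Rotation G) (X : R.Face → kk) (d : G.Dart) :
    d2 R X d = X (fc R d) + X (fc R d.symm) := rfl

/-- the boundary of a set of edges -/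
def d1 (G : SimpleGraph V) [DecidableRel G.Adj] : (G.Dart → kk) →ₗ[kk] (V → kk) where
  toFun z v := ∑ d ∈ univ.filter (fun d : G.Dart => d.fst = v), z d
  map_add' z w := by
    ext v
    simp [Finset.sum_add_distrib]
  map_smul' a z := by
    ext v
    simp [Finset.mul_sum]

theorem d1_apply (z : G.Dart → kk) (v : V) :
    d1 G z v = ∑ d ∈ univ.filter (fun d : G.Dart => d.fst = v), z d := rfl

theorem d1_single (d : G.Dart) : d1 G (Pi.single d 1) = Pi.single d.fst 1 := by
  ext v
  rw [d1_apply, Finset.sum_pi_single']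
  by_cases h : d.fst = v
  · subst h; simp
  · rw [Pi.single_eq_of_ne (Ne.symm h)]
    simp [h]

/-- sets of edges -/
def C1 (G : SimpleGraph V) : Submodule kk (G.Dart → kk) where
  carrier := {z | ∀ d, z d.symm = z d}
  add_mem' := by
    intro a b ha hb d
    simp only [Pi.add_apply]
    rw [ha d, hb d]
  zero_mem' := by intro d; rfl
  smul_mem' := by
    intro c a ha d
    simp only [Pi.smul_apply]
    rw [ha d]

theorem mem_C1 (z : G.Dart → kk) : z ∈ C1 G ↔ ∀ d, z d.symm = z d := Iff.rfl

/-- even sets of edges -/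
def Zc (G : SimpleGraph V) [DecidableRel G.Adj] : Submodule kk (G.Dart → kk) :=
  C1 G ⊓ LinearMap.ker (d1 G)

theorem d2_mem_C1 (R : Rotation G) (X : R.Face → kk) : d2 R X ∈ C1 G := by
  intro d
  rw [d2_apply, d2_apply, Dart.symm_symm, add_comm]

theorem d1_d2 (R : Rotation G) (X : R.Face → kk) : d1 G (d2 R X) = 0 := by
  ext v
  rw [d1_apply]
  simp only [d2_apply, Finset.sum_add_distrib]
  have h : ∑ d ∈ univ.filter (fun d : G.Dart => d.fst = v), X (fc R d.symm) =
      ∑ d ∈ univ.filter (fun d : G.Dart => d.fst = v), X (fc R d) := by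
    refine Finset.sum_equiv R.next ?_ ?_
    · intro d
      simp only [mem_filter, mem_univ, true_and]
      rw [next_fst]
    · intro d _
      rw [fc_next]
  rw [h, kk_add_self]
  rfl

theorem range_d2_le (R : Rotation G) : LinearMap.range (d2 R) ≤ Zc G := by
  rintro _ ⟨X, rfl⟩
  exact ⟨d2_mem_C1 R X, d1_d2 R X⟩

/-- the number of dimensions of `C1` -/
theorem finrank_C1_le : 2 * finrank kk (C1 G) ≤ Fintype.card G.Dart := by
  rw [G.dart_card_eq_twice_card_edges]
  refine Nat.mul_le_mul_left 2 ?_
  have hex : ∀ e : G.edgeSet, ∃ d : G.Dart, d.edge = e := by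
    rintro ⟨e, he⟩
    induction e with
    | h u v => exact ⟨⟨(u, v), he⟩, rfl⟩
  choose δ hδ using hex
  have h1 : #G.edgeFinset = Fintype.card G.edgeSet := by rw [edgeFinset_card]
  rw [h1, ← Module.finrank_fintype_fun_eq_card kk]
  let F : (G.Dart → kk) →ₗ[kk] (G.edgeSet → kk) := LinearMap.funLeft kk kk δ
  refine LinearMap.finrank_le_finrank_of_injective (f := F.domRestrict (C1 G)) ?_
  rintro ⟨z, hz⟩ ⟨w, hw⟩ h
  ext d
  have h2 : F z = F w := h
  have h3 := congrFun h2 ⟨d.edge, d.edge_mem⟩
  simp only [F, LinearMap.funLeft_apply] at h3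
  rcases (dart_edge_eq_iff _ _).1 (hδ ⟨d.edge, d.edge_mem⟩) with h4 | h4
  · rw [h4] at h3
    exact h3
  · rw [h4, hz d, hw d] at h3
    exact h3

/-- functions supported on `P` -/
def Sup (P : G.Dart → Prop) : Submodule kk (G.Dart → kk) where
  carrier := {z | ∀ d, ¬ P d → z d = 0}
  add_mem' := by
    intro a b ha hb d hd
    simp only [Pi.add_apply]
    rw [ha d hd, hb d hd, add_zero]
  zero_mem' := by intro d _; rfl
  smul_mem' := by
    intro c a ha d hd
    simp only [Pi.smul_apply]
    rw [ha d hd, smul_zero]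

theorem mem_Sup (P : G.Dart → Prop) (z : G.Dart → kk) : z ∈ Sup P ↔ ∀ d, ¬ P d → z d = 0 := Iff.rfl

theorem finrank_C1_Sup (P : G.Dart → Prop) [DecidablePred P] (hP : ∀ d, P d → P d.symm) :
    Fintype.card {d // P d} ≤ 2 * finrank kk (C1 G ⊓ Sup P : Submodule kk (G.Dart → kk)) := by
  let T : (G.Dart → kk) →ₗ[kk] (G.Dart → kk) := LinearMap.id + LinearMap.funLeft kk kk Dart.symm
  have hT : ∀ z d, T z d = z d + z d.symm := fun z d => rfl
  have h1 := rn T (Sup P)
  have h2 : (Sup P).map T ≤ C1 G ⊓ Sup P := by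
    rintro _ ⟨z, hz, rfl⟩
    refine ⟨?_, ?_⟩
    · intro d
      rw [hT, hT, Dart.symm_symm, add_comm]
    · intro d hd
      rw [hT, hz d hd, hz d.symm (fun h => hd (by simpa using hP _ h)), add_zero]
  have h3 : Sup P ⊓ LinearMap.ker T ≤ C1 G ⊓ Sup P := by
    rintro z ⟨hz, hz'⟩
    refine ⟨?_, hz⟩
    intro d
    have : T z d = 0 := by rw [LinearMap.mem_ker.1 hz']; rfl
    rw [hT, add_comm] at this
    exact kk_eq_of_add _ _ this
  have h4 := Submodule.finrank_mono h2
  have h5 := Submodule.finrank_mono h3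
  have h6 : Fintype.card {d // P d} ≤ finrank kk (Sup P) := by
    rw [← Module.finrank_fintype_fun_eq_card kk]
    let E : ({d // P d} → kk) →ₗ[kk] (G.Dart → kk) :=
      { toFun := fun y d => if h : P d then y ⟨d, h⟩ else 0
        map_add' := by
          intro y w
          ext d
          by_cases h : P d <;> simp [h]
        map_smul' := by
          intro a y
          ext d
          by_cases h : P d <;> simp [h] }
    have hE : ∀ y d, E y d = if h : P d then y ⟨d, h⟩ else 0 := fun _ _ => rfl
    refine LinearMap.finrank_le_finrank_of_injective (f := E.codRestrict (Sup P) ?_) ?_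
    · intro y d hd
      rw [hE, dif_neg hd]
    · intro y w h
      ext ⟨d, hd⟩
      have h7 : E y d = E w d := congrFun (congrArg Subtype.val h) d
      rw [hE, hE, dif_pos hd, dif_pos hd] at h7
      exact h7
  omega

end Pool.Agent.W2helper89.EF
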