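import Pool.Agent.W2helper89.EFDefs

set_option autoImplicit false

namespace Pool.Agent.W2helper89.EF

open Module

/-- the field with two elements -/
abbrev kk := ZMod 2

theorem kk_add_self (a : kk) : a + a = 0 := CharTwo.add_self_eq_zero a

theorem kk_eq_of_add (a b : kk) (h : a + b = 0) : a = b := by
  revert a b
  decide

theorem kk_ne_zero {a : kk} (h : a ≠ 0) : a = 1 := by
  revert a
  decide

/-- rank and nullity on a subspace -/
theorem rn {E F : Type*} [AddCommGroup E] [Module kk E] [AddCommGroup F] [Module kk F]
    [FiniteDimensional kk E] (f : E →ₗ[kk] F) (p : Submodule kk E) :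
    finrank kk (p.map f) + finrank kk (p ⊓ LinearMap.ker f : Submodule kk E) = finrank kk p := by
  have h := LinearMap.finrank_range_add_finrank_ker (f.domRestrict p)
  rw [LinearMap.range_domRestrict, LinearMap.ker_domRestrict] at h
  rw [← h, ← Submodule.map_comap_subtype, Submodule.finrank_map_subtype_eq]

theorem inv_same {α : Type*} [Finite α] (f : Equiv.Perm α) (z : α → kk) (hz : ∀ a, z (f a) = z a)
    {a b : α} (h : f.SameCycle a b) : z a = z b := by
  obtain ⟨i, rfl⟩ := h.exists_nat_pow_eq
  induction i with
  | zero => simp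
  | succ i ih =>
    rw [pow_succ', Equiv.Perm.mul_apply, hz]
    exact ih ⟨i, by simp⟩

/-- functions invariant under a permutation: at most as many dimensions as cycles -/
theorem finrank_inv_le {α : Type*} [Fintype α] (f : Equiv.Perm α) (S : Submodule kk (α → kk))
    (hS : ∀ z ∈ S, ∀ a, z (f a) = z a) :
    finrank kk S ≤ Nat.card (Quotient (Equiv.Perm.SameCycle.setoid f)) := by
  classical
  have : Finite (Quotient (Equiv.Perm.SameCycle.setoid f)) := Quotient.finite _
  have : Fintype (Quotient (Equiv.Perm.SameCycle.setoid f)) := Fintype.ofFinite _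
  rw [Nat.card_eq_fintype_card, ← Module.finrank_fintype_fun_eq_card kk]
  let F : (α → kk) →ₗ[kk] (Quotient (Equiv.Perm.SameCycle.setoid f) → kk) :=
    LinearMap.funLeft kk kk Quotient.out
  refine LinearMap.finrank_le_finrank_of_injective (f := F.domRestrict S) ?_
  rintro ⟨z, hz⟩ ⟨w, hw⟩ h
  ext a
  have h1 : F z = F w := h
  have h2 := congrFun h1 (Quotient.mk _ a)
  simp only [F, LinearMap.funLeft_apply] at h2
  have h3 : f.SameCycle (Quotient.out (Quotient.mk (Equiv.Perm.SameCycle.setoid f) a)) a :=
    Quotient.mk_out (s := Equiv.Perm.SameCycle.setoid f) a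
  rw [inv_same f z (hS z hz) h3, inv_same f w (hS w hw) h3] at h2
  exact h2

end Pool.Agent.W2helper89.EF
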