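import Pool.Agent.W2helper89.EFOrb

set_option autoImplicit false
set_option linter.unusedSectionVars false

namespace Pool.Agent.W2helper89.EF

open Module SimpleGraph Finset

variable {V : Type*} [Fintype V] [DecidableEq V] {G : SimpleGraph V} [DecidableRel G.Adj]

theorem tri_cycle {a b c : V} (hab : G.Adj a b) (hbc : G.Adj b c) (hca : G.Adj c a) :
    (Walk.cons hab (Walk.cons hbc (Walk.cons hca Walk.nil))).IsCycle := by
  rw [Walk.cons_isCycle_iff]
  constructor
  · rw [Walk.cons_isPath_iff, Walk.cons_isPath_iff]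
    refine ⟨⟨Walk.IsPath.nil, ?_⟩, ?_⟩
    · simpa using hca.ne
    · simpa using ⟨hbc.ne, hab.ne.symm⟩
  · simp only [Walk.edges_cons, Walk.edges_nil, List.mem_cons, List.not_mem_nil, or_false]
    rintro (h | h)
    · rw [Sym2.eq_iff] at h
      rcases h with ⟨h1, _⟩ | ⟨h1, _⟩
      · exact hab.ne h1
      · exact hca.ne h1.symm
    · rw [Sym2.eq_iff] at h
      rcases h with ⟨h1, _⟩ | ⟨_, h1⟩
      · exact hca.ne h1.symm
      · exact hbc.ne h1

/-- There is no subgraph of minimum degree at least 4 without a 4-cycle of vertices of degree 4. -/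
theorem core (R : Rotation G) (hR : R.EvenFaced) {g : ℕ} (hg : 1 ≤ g) (hgen : R.GenusLE g)
    (hN : ∀ (v : V) (p : G.Walk v v), p.IsCycle → ¬ R.Contractible p → 38 * g ≤ p.length)
    (W : Finset V) (hW : W.Nonempty) (hdeg : ∀ v ∈ W, 4 ≤ dg G W v)
    (hcyc : ∀ a ∈ W, ∀ b ∈ W, ∀ c ∈ W, ∀ d ∈ W, G.Adj a b → G.Adj b c → G.Adj c d →
      G.Adj d a → a ≠ c → b ≠ d →
      5 ≤ dg G W a ∨ 5 ≤ dg G W b ∨ 5 ≤ dg G W c ∨ 5 ≤ dg G W d) : False := by
  classical
  have htri : ∀ a b c, G.Adj a b → G.Adj b c → G.Adj c a → False := by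
    intro a b c hab hbc hca
    have h1 := tri_cycle hab hbc hca
    by_cases h2 : R.Contractible (Walk.cons hab (Walk.cons hbc (Walk.cons hca Walk.nil)))
    · have h3 := contractible_even R hR h2
      simp only [Walk.length_cons, Walk.length_nil] at h3
      exact absurd h3 (by decide)
    · have h3 := hN _ _ h1 h2
      simp only [Walk.length_cons, Walk.length_nil] at h3
      omega
  have hQ : Fintype.card {d : G.Dart // PW G W d} = ∑ v ∈ W, dg G W v := by
    have := sum_darts (G := G) W (fun _ => 1)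
    simpa using this
  have hQ4 : 4 * #W ≤ Fintype.card {d : G.Dart // PW G W d} := by
    rw [hQ, mul_comm, ← smul_eq_mul]
    exact Finset.card_nsmul_le_sum _ _ _ hdeg
  have hpos : 0 < #W := card_pos.2 hW
  have hq : Nonempty {d : G.Dart // PW G W d} := by
    rw [← Fintype.card_pos_iff]
    omega
  obtain ⟨q0⟩ := hq
  have h4 := FW_four R W hdeg htri
  have h5 := FW_five R W hdeg htri hcyc
  have h6 := euler_genus R hgen (PW G W) (PW_symm W) W (fun d h => h.1) q0
  have h6' : Fintype.card {d : G.Dart // PW G W d} + 4 ≤ 2 * FW R W + 2 * #W + 4 * g := h6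
  have hn : #W < 38 * g := by omega
  have h7 : Zc G ⊓ Sup (PW G W) ≤ LinearMap.range (d2 R) := by
    refine Zc_le_range R (PW G W) ?_
    intro v p hp hpW
    have hlen : p.length ≤ #W := by
      have h8 : p.support.tail.toFinset ⊆ W := by
        intro x hx
        rw [List.mem_toFinset] at hx
        have h9 : p.support.tail = p.darts.map fun d => d.snd := by
          exact (Walk.map_snd_darts p).symm
        rw [h9] at hx
        obtain ⟨d, hd, rfl⟩ := List.mem_map.1 hx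
        exact (hpW d hd).2
      have h9 := card_le_card h8
      rw [List.toFinset_card_of_nodup hp.support_nodup, List.length_tail, Walk.length_support] at h9
      omega
    have hc : R.Contractible p := by
      by_contra hcon
      have := hN v p hp hcon
      omega
    exact contractible_vec R hc
  have h8 := euler_plane R (PW G W) (PW_symm W) W (fun d h => h.1) q0 h7
  have h8' : Fintype.card {d : G.Dart // PW G W d} + 4 ≤ 2 * FW R W + 2 * #W := h8
  omega

/-- lists of two colours on a 4-cycle -/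
theorem four_cycle_lists (A B C D : Finset ℕ) (hA : 2 ≤ #A) (hB : 2 ≤ #B) (hC : 2 ≤ #C)
    (hD : 2 ≤ #D) : ∃ a ∈ A, ∃ b ∈ B, ∃ c ∈ C, ∃ d ∈ D, a ≠ b ∧ b ≠ c ∧ c ≠ d ∧ d ≠ a := by
  by_cases h : ∃ x, x ∈ A ∧ x ∈ C
  · obtain ⟨x, hxA, hxC⟩ := h
    obtain ⟨b, hb, hbx⟩ := Finset.exists_mem_ne (by omega : 1 < #B) x
    obtain ⟨d, hd, hdx⟩ := Finset.exists_mem_ne (by omega : 1 < #D) x
    exact ⟨x, hxA, b, hb, x, hxC, d, hd, hbx.symm, hbx, hdx.symm, hdx⟩
  · push Not at h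
    obtain ⟨a1, ha1, a2, ha2, ha⟩ := Finset.one_lt_card.1 (by omega : 1 < #A)
    obtain ⟨c1, hc1, c2, hc2, hc⟩ := Finset.one_lt_card.1 (by omega : 1 < #C)
    have key : ∀ S : Finset ℕ, 2 ≤ #S → ∀ x y, (∀ s ∈ S, s = x ∨ s = y) → x ∈ S ∧ y ∈ S := by
      intro S hS x y hs
      obtain ⟨s, hsS, t, htS, hst⟩ := Finset.one_lt_card.1 (by omega : 1 < #S)
      rcases hs s hsS with rfl | rfl <;> rcases hs t htS with rfl | rfl
      · exact absurd rfl hst
      · exact ⟨hsS, htS⟩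
      · exact ⟨htS, hsS⟩
      · exact absurd rfl hst
    by_contra hcon
    -- every pair `(a, c)` is blocked by `B` or by `D`
    have hbl : ∀ a ∈ A, ∀ c ∈ C, (∀ s ∈ B, s = a ∨ s = c) ∨ (∀ s ∈ D, s = a ∨ s = c) := by
      intro a ha' c hc'
      by_contra h2
      push Not at h2
      obtain ⟨⟨b, hb, hb1, hb2⟩, ⟨d, hd, hd1, hd2⟩⟩ := h2
      exact hcon ⟨a, ha', b, hb, c, hc', d, hd, hb1.symm, hb2, hd2.symm, hd1⟩
    have hB' : ∀ a ∈ A, ∀ c ∈ C, (∀ s ∈ B, s = a ∨ s = c) → a ∈ B ∧ c ∈ B := fun a _ c _ hs =>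
      key B hB a c hs
    have hD' : ∀ a ∈ A, ∀ c ∈ C, (∀ s ∈ D, s = a ∨ s = c) → a ∈ D ∧ c ∈ D := fun a _ c _ hs =>
      key D hD a c hs
    have hu : ∀ S : Finset ℕ, ∀ a ∈ A, ∀ c ∈ C, ∀ a' ∈ A, ∀ c' ∈ C, (∀ s ∈ S, s = a ∨ s = c) →
        a' ∈ S → c' ∈ S → a' = a ∧ c' = c := by
      intro S a ha c hc a' ha' c' hc' hs h1 h2
      constructor
      · rcases hs a' h1 with h3 | h3
        · exact h3
        · exact absurd (h3 ▸ hc) (h a' ha')
      · rcases hs c' h2 with h3 | h3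
        · exact absurd (h3 ▸ hc') (h a ha)
        · exact h3
    have p11 := hbl a1 ha1 c1 hc1
    have p12 := hbl a1 ha1 c2 hc2
    have p21 := hbl a2 ha2 c1 hc1
    have same : ∀ S : Finset ℕ, 2 ≤ #S → ∀ a ∈ A, ∀ c ∈ C, ∀ a' ∈ A, ∀ c' ∈ C,
        (∀ s ∈ S, s = a ∨ s = c) → (∀ s ∈ S, s = a' ∨ s = c') → a' = a ∧ c' = c := by
      intro S hS a ha c hc a' ha' c' hc' hs hs'
      have h1 := key S hS a' c' hs'
      exact hu S a ha c hc a' ha' c' hc' hs h1.1 h1.2
    rcases p11 with p11 | p11 <;> rcases p12 with p12 | p12 <;> rcases p21 with p21 | p21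
    · exact hc (same B hB a1 ha1 c1 hc1 a1 ha1 c2 hc2 p11 p12).2.symm
    · exact hc (same B hB a1 ha1 c1 hc1 a1 ha1 c2 hc2 p11 p12).2.symm
    · exact ha (same B hB a1 ha1 c1 hc1 a2 ha2 c1 hc1 p11 p21).1.symm
    · exact ha (same D hD a1 ha1 c2 hc2 a2 ha2 c1 hc1 p12 p21).1.symm
    · exact ha (same B hB a1 ha1 c2 hc2 a2 ha2 c1 hc1 p12 p21).1.symm
    · exact ha (same D hD a1 ha1 c1 hc1 a2 ha2 c1 hc1 p11 p21).1.symm
    · exact hc (same D hD a1 ha1 c1 hc1 a1 ha1 c2 hc2 p11 p12).2.symm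
    · exact hc (same D hD a1 ha1 c1 hc1 a1 ha1 c2 hc2 p11 p12).2.symm

end Pool.Agent.W2helper89.EF
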