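import Pool.Agent.W2helper89.EFCount

set_option autoImplicit false
set_option linter.unusedSectionVars false

namespace Pool.Agent.W2helper89.EF

open Module SimpleGraph Finset

theorem card_orbits {Q : Type*} [Fintype Q] (f : Equiv.Perm Q) (w : Q → ℕ) (k : ℕ)
    (h : ∀ q, ∃ S : Finset Q, (∀ x ∈ S, f.SameCycle q x) ∧ k ≤ ∑ x ∈ S, w x) :
    k * Nat.card (Quotient (Equiv.Perm.SameCycle.setoid f)) ≤ ∑ q, w q := by
  classical
  have : Finite (Quotient (Equiv.Perm.SameCycle.setoid f)) := Quotient.finite _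
  have : Fintype (Quotient (Equiv.Perm.SameCycle.setoid f)) := Fintype.ofFinite _
  rw [Nat.card_eq_fintype_card,
    ← Finset.sum_fiberwise univ (fun q => (Quotient.mk _ q : Quotient (Equiv.Perm.SameCycle.setoid f))) w]
  rw [← Finset.card_univ, mul_comm, ← smul_eq_mul]
  refine Finset.card_nsmul_le_sum _ _ _ ?_
  intro o _
  obtain ⟨S, hS, hk⟩ := h o.out
  refine hk.trans ?_
  refine Finset.sum_le_sum_of_subset ?_
  intro x hx
  rw [mem_filter]
  refine ⟨mem_univ _, ?_⟩
  rw [← Quotient.out_eq o]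
  exact (Quotient.sound (s := Equiv.Perm.SameCycle.setoid f) (hS x hx)).symm

variable {V : Type*} [Fintype V] [DecidableEq V] {G : SimpleGraph V} [DecidableRel G.Adj]
variable (R : Rotation G) (W : Finset V) (hdeg : ∀ v ∈ W, 4 ≤ dg G W v)
  (htri : ∀ a b c, G.Adj a b → G.Adj b c → G.Adj c a → False)

/-- the number of facial walks of the subgraph induced by `W` -/
noncomputable def FW : ℕ := Nat.card (Quotient (Equiv.Perm.SameCycle.setoid (fW R W)))

theorem pow_same (q : {d : G.Dart // PW G W d}) (i : ℕ) :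
    (fW R W).SameCycle q ((fW R W ^ i) q) := ⟨i, by simp⟩

include hdeg htri

theorem FW_four : 4 * FW R W ≤ Fintype.card {d : G.Dart // PW G W d} := by
  classical
  have h := card_orbits (fW R W) (fun _ => 1) 4 (fun q => by
    obtain ⟨v, hv, hvW, hadj, h2, h3⟩ := orbit_facts R W hdeg htri q
    have hne : ∀ i j, v i ≠ v j → (fW R W ^ i) q ≠ (fW R W ^ j) q := by
      intro i j hij h
      apply hij
      rw [← hv i, ← hv j, h]
    refine ⟨{(fW R W ^ 0) q, (fW R W ^ 1) q, (fW R W ^ 2) q, (fW R W ^ 3) q}, ?_, ?_⟩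
    · intro x hx
      rw [mem_insert, mem_insert, mem_insert, mem_singleton] at hx
      rcases hx with h | h | h | h <;> rw [h] <;> exact pow_same R W q _
    · rw [Finset.sum_const, smul_eq_mul, mul_one]
      have e01 := hne 0 1 (hadj 0).ne
      have e02 := hne 0 2 (h2 0).symm
      have e03 := hne 0 3 (h3 0).symm
      have e12 := hne 1 2 (hadj 1).ne
      have e13 := hne 1 3 (h2 1).symm
      have e23 := hne 2 3 (hadj 2).ne
      rw [card_insert_of_notMem, card_insert_of_notMem, card_insert_of_notMem, card_singleton]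
      · simpa using e23
      · simpa using ⟨e12, e13⟩
      · simpa using ⟨e01, e02, e03⟩)
  simpa [FW] using h

theorem FW_five (hcyc : ∀ a ∈ W, ∀ b ∈ W, ∀ c ∈ W, ∀ d ∈ W, G.Adj a b → G.Adj b c → G.Adj c d →
      G.Adj d a → a ≠ c → b ≠ d →
      5 ≤ dg G W a ∨ 5 ≤ dg G W b ∨ 5 ≤ dg G W c ∨ 5 ≤ dg G W d) :
    5 * FW R W + 20 * #W ≤ 6 * Fintype.card {d : G.Dart // PW G W d} := by
  classical
  let φ : V → ℕ := fun v => 1 + if 5 ≤ dg G W v then 1 else 0
  have h := card_orbits (fW R W) (fun q => φ q.1.fst) 5 (fun q => by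
    obtain ⟨v, hv, hvW, hadj, h2, h3⟩ := orbit_facts R W hdeg htri q
    have hne : ∀ i j, v i ≠ v j → (fW R W ^ i) q ≠ (fW R W ^ j) q := by
      intro i j hij h
      apply hij
      rw [← hv i, ← hv j, h]
    have e01 := hne 0 1 (hadj 0).ne
    have e02 := hne 0 2 (h2 0).symm
    have e03 := hne 0 3 (h3 0).symm
    have e12 := hne 1 2 (hadj 1).ne
    have e13 := hne 1 3 (h2 1).symm
    have e23 := hne 2 3 (hadj 2).ne
    by_cases h4 : (fW R W ^ 4) q = (fW R W ^ 0) q
    · refine ⟨{(fW R W ^ 0) q, (fW R W ^ 1) q, (fW R W ^ 2) q, (fW R W ^ 3) q}, ?_, ?_⟩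
      · intro x hx
        rw [mem_insert, mem_insert, mem_insert, mem_singleton] at hx
        rcases hx with h | h | h | h <;> rw [h] <;> exact pow_same R W q _
      · have hv4 : v 4 = v 0 := by rw [← hv 4, ← hv 0, h4]
        have h30 : G.Adj (v 3) (v 0) := hv4 ▸ hadj 3
        have h5 := hcyc _ (hvW 0) _ (hvW 1) _ (hvW 2) _ (hvW 3) (hadj 0) (hadj 1) (hadj 2) h30
          (h2 0).symm (h2 1).symm
        rw [sum_insert, sum_insert, sum_insert, sum_singleton]
        · simp only [hv, φ]
          rcases h5 with h5 | h5 | h5 | h5 <;> rw [if_pos h5] <;> omega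
        · simpa using e23
        · simpa using ⟨e12, e13⟩
        · simpa using ⟨e01, e02, e03⟩
    · refine ⟨{(fW R W ^ 0) q, (fW R W ^ 1) q, (fW R W ^ 2) q, (fW R W ^ 3) q, (fW R W ^ 4) q},
        ?_, ?_⟩
      · intro x hx
        rw [mem_insert, mem_insert, mem_insert, mem_insert, mem_singleton] at hx
        rcases hx with h | h | h | h | h <;> rw [h] <;> exact pow_same R W q _
      · have e04 : (fW R W ^ 0) q ≠ (fW R W ^ 4) q := fun h => h4 h.symm
        have e14 := hne 1 4 (h3 1).symm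
        have e24 := hne 2 4 (h2 2).symm
        have e34 := hne 3 4 (hadj 3).ne
        have hge : ∀ x : {d : G.Dart // PW G W d}, 1 ≤ φ x.1.fst := fun x => Nat.le_add_right _ _
        rw [sum_insert, sum_insert, sum_insert, sum_insert, sum_singleton]
        · have := hge ((fW R W ^ 0) q)
          have := hge ((fW R W ^ 1) q)
          have := hge ((fW R W ^ 2) q)
          have := hge ((fW R W ^ 3) q)
          have := hge ((fW R W ^ 4) q)
          omega
        · simpa using e34
        · simpa using ⟨e23, e24⟩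
        · simpa using ⟨e12, e13, e14⟩
        · simpa using ⟨e01, e02, e03, e04⟩)
  rw [sum_darts W φ] at h
  have h1 : Fintype.card {d : G.Dart // PW G W d} = ∑ v ∈ W, dg G W v := by
    have := sum_darts (G := G) W (fun _ => 1)
    simpa using this
  have h2 : ∑ v ∈ W, dg G W v * φ v + 20 * #W ≤ 6 * ∑ v ∈ W, dg G W v := by
    have e : 20 * #W = ∑ v ∈ W, 20 := by rw [sum_const, smul_eq_mul, mul_comm]
    rw [e, ← Finset.sum_add_distrib, Finset.mul_sum]
    refine Finset.sum_le_sum fun v hv => ?_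
    have h4 := hdeg v hv
    simp only [φ]
    split_ifs with h5
    · omega
    · have : dg G W v = 4 := by omega
      rw [this]
      omega
  rw [h1]
  have h3 : 5 * FW R W ≤ ∑ v ∈ W, dg G W v * φ v := h
  omega

end Pool.Agent.W2helper89.EF
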