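import Pool.Agent.W2helper89.EFGenus

set_option autoImplicit false
set_option linter.unusedSectionVars false

namespace Pool.Agent.W2helper89.EF

open Module SimpleGraph Finset

section ret

variable {α : Type*} [Finite α] (f : Equiv.Perm α) (P : α → Prop)

theorem exists_ret (q : {a // P a}) : ∃ j, P ((f ^ (j + 1)) q.1) := by
  refine ⟨orderOf f - 1, ?_⟩
  have h := orderOf_pos f
  rw [Nat.sub_add_cancel h, pow_orderOf_eq_one]
  exact q.2

open Classical in
/-- the time of the first return -/
noncomputable def rt (q : {a // P a}) : ℕ := Nat.find (exists_ret f P q)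

open Classical in
theorem rt_spec (q : {a // P a}) : P ((f ^ (rt f P q + 1)) q.1) := Nat.find_spec (exists_ret f P q)

open Classical in
theorem rt_min (q : {a // P a}) {j : ℕ} (h : j < rt f P q) : ¬ P ((f ^ (j + 1)) q.1) :=
  Nat.find_min (exists_ret f P q) h

/-- the first return -/
noncomputable def ret (q : {a // P a}) : {a // P a} := ⟨(f ^ (rt f P q + 1)) q.1, rt_spec f P q⟩

theorem ret_aux {q q' : {a // P a}} (h : ret f P q = ret f P q') (hle : rt f P q ≤ rt f P q') :
    q = q' := by
  have h1 : (f ^ (rt f P q + 1)) q.1 = (f ^ (rt f P q' + 1)) q'.1 := congrArg Subtype.val h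
  obtain ⟨c, hc⟩ := Nat.exists_eq_add_of_le hle
  have e : f ^ (rt f P q' + 1) = f ^ (rt f P q + 1) * f ^ c := by
    rw [hc, ← pow_add]
    congr 1
    omega
  rw [e, Equiv.Perm.mul_apply] at h1
  have h2 : q.1 = (f ^ c) q'.1 := (f ^ (rt f P q + 1)).injective h1
  rcases c with _ | c
  · exact Subtype.ext (by simpa using h2)
  · exfalso
    refine rt_min f P q' (j := c) (by omega) ?_
    rw [← h2]
    exact q.2

theorem ret_inj : Function.Injective (ret f P) := by
  intro q q' h
  rcases le_total (rt f P q) (rt f P q') with h1 | h1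
  · exact ret_aux f P h h1
  · exact (ret_aux f P h.symm h1).symm

/-- the first return as a permutation -/
noncomputable def retP : Equiv.Perm {a // P a} :=
  Equiv.ofBijective (ret f P) (Finite.injective_iff_bijective.1 (ret_inj f P))

theorem retP_apply (q : {a // P a}) : (retP f P q).1 = (f ^ (rt f P q + 1)) q.1 := rfl

end ret

variable {V : Type*} [Fintype V] [DecidableEq V] {G : SimpleGraph V} [DecidableRel G.Adj]

/-- reversing darts of `P` -/
def sQ (P : G.Dart → Prop) (hP : ∀ d, P d → P d.symm) : Equiv.Perm {d // P d} where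
  toFun q := ⟨q.1.symm, hP _ q.2⟩
  invFun q := ⟨q.1.symm, hP _ q.2⟩
  left_inv q := by simp
  right_inv q := by simp

/-- the face permutation of the subgraph with darts `P` -/
noncomputable def faceP (R : Rotation G) (P : G.Dart → Prop) (hP : ∀ d, P d → P d.symm) :
    Equiv.Perm {d // P d} := (sQ P hP).trans (retP R.next P)

theorem pow_next_fst (R : Rotation G) (j : ℕ) (d : G.Dart) : ((R.next ^ j) d).fst = d.fst := by
  induction j with
  | zero => rfl
  | succ j ih => rw [pow_succ', Equiv.Perm.mul_apply, next_fst, ih]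

theorem faceP_fst (R : Rotation G) (P : G.Dart → Prop) (hP : ∀ d, P d → P d.symm)
    (q : {d // P d}) : (faceP R P hP q).1.fst = q.1.snd := by
  show ((R.next ^ (rt R.next P (sQ P hP q) + 1)) (sQ P hP q).1).fst = q.1.snd
  rw [pow_next_fst]
  rfl

theorem X_next (R : Rotation G) (P : G.Dart → Prop) {X : R.Face → kk} (hX : d2 R X ∈ Sup P)
    (q : {d // P d}) : ∀ j, j ≤ rt R.next P q →
      X (fc R ((R.next ^ (j + 1)) q.1)) = X (fc R q.1.symm) := by
  intro j
  induction j with
  | zero =>
    intro _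
    rw [zero_add, pow_one, fc_next]
  | succ j ih =>
    intro hj
    rw [pow_succ', Equiv.Perm.mul_apply, fc_next, ← ih (by omega)]
    have h1 := hX _ (rt_min R.next P q (j := j) (by omega))
    rw [d2_apply, add_comm] at h1
    exact kk_eq_of_add _ _ h1

theorem face_count (R : Rotation G) (P : G.Dart → Prop) (hP : ∀ d, P d → P d.symm)
    (q0 : {d // P d}) :
    finrank kk (LinearMap.range (d2 R) ⊓ Sup P : Submodule kk (G.Dart → kk)) + 1 ≤
      Nat.card (Quotient (Equiv.Perm.SameCycle.setoid (faceP R P hP))) := by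
  classical
  let S : Submodule kk (R.Face → kk) := Submodule.comap (d2 R) (Sup P)
  let ρ : (R.Face → kk) →ₗ[kk] ({d // P d} → kk) :=
    LinearMap.funLeft kk kk fun q => fc R q.1
  have : Fintype R.Face := Fintype.ofFinite _
  have h1 := rn (d2 R) S
  have h2 := rn ρ S
  have h3 : S.map (d2 R) = LinearMap.range (d2 R) ⊓ Sup P := Submodule.map_comap_eq _ _
  have h4 : S ⊓ LinearMap.ker (d2 R) = LinearMap.ker (d2 R) := by
    rw [inf_eq_right]
    intro X hX
    show d2 R X ∈ Sup P
    rw [LinearMap.mem_ker.1 hX]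
    exact zero_mem _
  have h5 : finrank kk (S.map ρ) ≤
      Nat.card (Quotient (Equiv.Perm.SameCycle.setoid (faceP R P hP))) := by
    refine finrank_inv_le _ _ ?_
    rintro _ ⟨X, hX, rfl⟩ q
    show X (fc R (faceP R P hP q).1) = X (fc R q.1)
    have := X_next R P hX (sQ P hP q) _ le_rfl
    refine this.trans ?_
    show X (fc R q.1.symm.symm) = X (fc R q.1)
    rw [Dart.symm_symm]
  have h6 : S ⊓ LinearMap.ker ρ < LinearMap.ker (d2 R) := by
    refine lt_of_le_of_ne ?_ ?_
    · rintro X ⟨hX, hX'⟩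
      rw [LinearMap.mem_ker]
      ext d
      by_cases hd : P d
      · have e1 : X (fc R d) = 0 := congrFun (LinearMap.mem_ker.1 hX') ⟨d, hd⟩
        have e2 : X (fc R d.symm) = 0 := congrFun (LinearMap.mem_ker.1 hX') ⟨d.symm, hP d hd⟩
        rw [d2_apply, e1, e2]
        rfl
      · exact hX d hd
    · intro h
      have h7 : (fun _ => 1 : R.Face → kk) ∈ LinearMap.ker (d2 R) := by
        rw [LinearMap.mem_ker]
        ext d
        rw [d2_apply, kk_add_self]
        rfl
      rw [← h] at h7
      have h8 := congrFun (LinearMap.mem_ker.1 h7.2) q0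
      exact one_ne_zero h8
  have h7 := Submodule.finrank_lt_finrank_of_lt h6
  rw [h3, h4] at h1
  omega

/-- even sets of edges of the subgraph induced by `W` -/
theorem Zc_Sup (P : G.Dart → Prop) [DecidablePred P] (hP : ∀ d, P d → P d.symm) (W : Finset V)
    (hW : W.Nonempty) (hPW : ∀ d, P d → d.fst ∈ W) :
    Fintype.card {d // P d} + 2 ≤
      2 * finrank kk (Zc G ⊓ Sup P : Submodule kk (G.Dart → kk)) + 2 * #W := by
  classical
  obtain ⟨w0, hw0⟩ := hW
  let f : (G.Dart → kk) →ₗ[kk] ({v // v ∈ W.erase w0} → kk) :=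
    (LinearMap.funLeft kk kk Subtype.val).comp (d1 G)
  have h1 := rn f (C1 G ⊓ Sup P)
  have h2 := finrank_C1_Sup P hP
  have h3 : finrank kk ((C1 G ⊓ Sup P).map f) ≤ #W - 1 := by
    refine (Submodule.finrank_le _).trans ?_
    rw [Module.finrank_fintype_fun_eq_card, Fintype.card_coe, card_erase_of_mem hw0]
  have h4 : C1 G ⊓ Sup P ⊓ LinearMap.ker f ≤ Zc G ⊓ Sup P := by
    rintro z ⟨⟨hz1, hz2⟩, hz3⟩
    refine ⟨⟨hz1, ?_⟩, hz2⟩
    have e1 : ∀ v, v ≠ w0 → d1 G z v = 0 := by
      intro v hv
      by_cases hvW : v ∈ W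
      · exact congrFun (LinearMap.mem_ker.1 hz3) ⟨v, mem_erase.2 ⟨hv, hvW⟩⟩
      · rw [d1_apply]
        refine Finset.sum_eq_zero fun d hd => hz2 d fun h => hvW ?_
        rw [← (mem_filter.1 hd).2]
        exact hPW d h
    have e2 : ∑ v, d1 G z v = 0 := by
      have e3 : ∑ v, d1 G z v = ∑ d, z d := by
        simp only [d1_apply]
        exact Finset.sum_fiberwise univ (fun d : G.Dart => d.fst) z
      rw [e3]
      refine Finset.sum_involution (fun d _ => d.symm) ?_ ?_ (fun _ _ => mem_univ _) ?_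
      · intro d _
        rw [hz1 d, kk_add_self]
      · intro d _ _
        exact d.symm_ne
      · intro d _
        exact d.symm_symm
    rw [SetLike.mem_coe, LinearMap.mem_ker]
    ext v
    by_cases hv : v = w0
    · subst hv
      rw [Finset.sum_eq_single v (fun u _ hu => e1 u hu) (fun h => absurd (mem_univ _) h)] at e2
      exact e2
    · exact e1 v hv
  have h5 := Submodule.finrank_mono h4
  have h6 : 1 ≤ #W := card_pos.2 ⟨w0, hw0⟩
  omega

/-- Euler's inequality for a subgraph, with the genus of the surface. -/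
theorem euler_genus (R : Rotation G) {g : ℕ} (hg : R.GenusLE g) (P : G.Dart → Prop)
    [DecidablePred P] (hP : ∀ d, P d → P d.symm) (W : Finset V) (hPW : ∀ d, P d → d.fst ∈ W)
    (q0 : {d // P d}) :
    Fintype.card {d // P d} + 4 ≤
      2 * Nat.card (Quotient (Equiv.Perm.SameCycle.setoid (faceP R P hP))) + 2 * #W + 4 * g := by
  have h1 := face_count R P hP q0
  have h2 := Zc_Sup P hP W ⟨_, hPW _ q0.2⟩ hPW
  have h3 := genus_bound R hg
  have h4 := Submodule.finrank_sup_add_finrank_inf_eq (Zc G ⊓ Sup P) (LinearMap.range (d2 R))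
  have h5 : (Zc G ⊓ Sup P) ⊔ LinearMap.range (d2 R) ≤ Zc G :=
    sup_le inf_le_left (range_d2_le R)
  have h6 := Submodule.finrank_mono h5
  have h7 : Zc G ⊓ Sup P ⊓ LinearMap.range (d2 R) ≤ LinearMap.range (d2 R) ⊓ Sup P :=
    fun z hz => ⟨hz.2, hz.1.2⟩
  have h8 := Submodule.finrank_mono h7
  omega

/-- Euler's inequality for a subgraph all of whose cycles are sums of faces. -/
theorem euler_plane (R : Rotation G) (P : G.Dart → Prop)
    [DecidablePred P] (hP : ∀ d, P d → P d.symm) (W : Finset V) (hPW : ∀ d, P d → d.fst ∈ W)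
    (q0 : {d // P d}) (hB : Zc G ⊓ Sup P ≤ LinearMap.range (d2 R)) :
    Fintype.card {d // P d} + 4 ≤
      2 * Nat.card (Quotient (Equiv.Perm.SameCycle.setoid (faceP R P hP))) + 2 * #W := by
  have h1 := face_count R P hP q0
  have h2 := Zc_Sup P hP W ⟨_, hPW _ q0.2⟩ hPW
  have h7 : Zc G ⊓ Sup P ≤ LinearMap.range (d2 R) ⊓ Sup P :=
    fun z hz => ⟨hB hz, hz.2⟩
  have h8 := Submodule.finrank_mono h7
  omega

end Pool.Agent.W2helper89.EF
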