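import Pool.Agent.W2helper89.EFSub

set_option autoImplicit false
set_option linter.unusedSectionVars false

namespace Pool.Agent.W2helper89.EF

open Module SimpleGraph Finset

variable {V : Type*} [Fintype V] [DecidableEq V] {G : SimpleGraph V} [DecidableRel G.Adj]

/-- the edges of a walk, modulo 2 -/
def vec {u v : V} (p : G.Walk u v) : G.Dart → kk := fun d => ((p.edges.count d.edge : ℕ) : kk)

/-- one edge -/
def ev {u v : V} (h : G.Adj u v) : G.Dart → kk :=
  Pi.single ⟨(u, v), h⟩ 1 + Pi.single ⟨(v, u), h.symm⟩ 1

theorem vec_nil {u : V} : vec (Walk.nil : G.Walk u u) = 0 := by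
  ext d
  simp [vec]

theorem vec_append {u v w : V} (p : G.Walk u v) (q : G.Walk v w) :
    vec (p.append q) = vec p + vec q := by
  ext d
  simp [vec, Walk.edges_append, List.count_append]

theorem ev_apply {u v : V} (h : G.Adj u v) (d : G.Dart) :
    ev h d = if s(u, v) = d.edge then 1 else 0 := by
  have h1 : s(u, v) = d.edge ↔ (d = ⟨(u, v), h⟩ ∨ d = ⟨(v, u), h.symm⟩) := by
    rw [eq_comm, dart_edge_eq_mk'_iff, Dart.ext_iff, Dart.ext_iff]
  have hne : (⟨(u, v), h⟩ : G.Dart) ≠ ⟨(v, u), h.symm⟩ := by
    intro h2
    have := congrArg (fun d : G.Dart => d.fst) h2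
    exact h.ne this
  simp only [ev, Pi.add_apply, Pi.single_apply]
  rw [if_congr h1 rfl rfl]
  by_cases e1 : d = ⟨(u, v), h⟩
  · subst e1
    rw [if_pos rfl, if_neg hne, if_pos (Or.inl rfl), add_zero]
  · by_cases e2 : d = ⟨(v, u), h.symm⟩
    · subst e2
      rw [if_neg e1, if_pos rfl, if_pos (Or.inr rfl), zero_add]
    · rw [if_neg e1, if_neg e2, if_neg (by tauto), add_zero]

theorem vec_cons {u v w : V} (h : G.Adj u v) (p : G.Walk v w) :
    vec (Walk.cons h p) = ev h + vec p := by
  ext d
  rw [Pi.add_apply, ev_apply]
  simp only [vec, Walk.edges_cons, List.count_cons, beq_iff_eq]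
  rw [Nat.cast_add, add_comm]
  congr 1
  split_ifs <;> simp

theorem d1_ev {u v : V} (h : G.Adj u v) :
    d1 G (ev h) = (Pi.single u 1 + Pi.single v 1 : V → kk) := by
  rw [ev, map_add, d1_single, d1_single]

theorem fun_add_self {α : Type*} (a : α → kk) : a + a = 0 := by
  ext x
  exact kk_add_self _

theorem d1_vec {u v : V} (p : G.Walk u v) :
    d1 G (vec p) = (Pi.single u 1 + Pi.single v 1 : V → kk) := by
  induction p with
  | nil => rw [vec_nil, map_zero, fun_add_self]
  | @cons a b c hab p ih =>
    rw [vec_cons, map_add, d1_ev, ih]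
    have : ∀ x y z : V → kk, x + y + (y + z) = x + z := by
      intro x y z
      rw [add_assoc, ← add_assoc y y z, fun_add_self, zero_add]
    exact this _ _ _

theorem vec_mem_C1 {u v : V} (p : G.Walk u v) : vec p ∈ C1 G := by
  intro d
  simp [vec]

theorem vec_mem_Zc {u : V} (p : G.Walk u u) : vec p ∈ Zc G := by
  refine ⟨vec_mem_C1 p, ?_⟩
  rw [SetLike.mem_coe, LinearMap.mem_ker, d1_vec, fun_add_self]

open Classical in
theorem iterate_count (R : Rotation G) (d e : G.Dart) :
    ((List.iterate R.face d (Function.minimalPeriod R.face d)).count e : ℕ) =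
      if fc R d = fc R e then 1 else 0 := by
  set n := Function.minimalPeriod R.face d with hn
  have hnd : (List.iterate R.face d n).Nodup := by
    rw [← List.range_map_iterate]
    refine List.Nodup.map_on ?_ List.nodup_range
    intro x hx y hy hxy
    rw [List.mem_range] at hx hy
    exact Function.iterate_injOn_Iio_minimalPeriod (Set.mem_Iio.2 hx) (Set.mem_Iio.2 hy) hxy
  have hpos : 0 < n := by
    refine Function.minimalPeriod_pos_of_mem_periodicPts ?_
    exact Function.Injective.mem_periodicPts R.face.injective d
  split_ifs with h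
  · refine List.count_eq_one_of_mem hnd ?_
    rw [fc_eq_iff] at h
    obtain ⟨i, hi⟩ := h.exists_nat_pow_eq
    rw [List.mem_iterate]
    refine ⟨i % n, Nat.mod_lt _ hpos, ?_⟩
    rw [Function.iterate_mod_minimalPeriod_eq, ← hi]
    rw [Equiv.Perm.iterate_eq_pow]
  · rw [List.count_eq_zero]
    intro hmem
    rw [List.mem_iterate] at hmem
    obtain ⟨i, -, hi⟩ := hmem
    apply h
    rw [fc_eq_iff]
    refine ⟨i, ?_⟩
    rw [hi, Equiv.Perm.iterate_eq_pow]
    simp

open Classical in
theorem vec_facial (R : Rotation G) {v : V} (p : G.Walk v v) (d : G.Dart)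
    (hp : p.darts = List.iterate R.face d (Function.minimalPeriod R.face d)) :
    vec p = d2 R (Pi.single (fc R d) 1) := by
  ext e
  rw [d2_apply]
  have h1 : ∀ l : List G.Dart, (l.map Dart.edge).count e.edge = l.count e + l.count e.symm := by
    intro l
    induction l with
    | nil => rfl
    | cons a l ih =>
      rw [List.map_cons, List.count_cons, List.count_cons, List.count_cons, ih]
      simp only [beq_iff_eq]
      have h2 := dart_edge_eq_iff a e
      have h3 : e ≠ e.symm := e.symm_ne.symm
      by_cases e1 : a = e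
      · subst e1
        rw [if_pos rfl, if_pos rfl, if_neg h3]
        omega
      · by_cases e2 : a = e.symm
        · rw [if_pos (h2.2 (Or.inr e2)), if_neg e1, if_pos e2]
          omega
        · rw [if_neg (fun h => by rcases h2.1 h with h | h <;> tauto), if_neg e1, if_neg e2]
          omega
  have h2 : vec p e = ((p.edges.count e.edge : ℕ) : kk) := rfl
  have h3 : p.edges = p.darts.map Dart.edge := rfl
  rw [h2, h3, h1, hp, iterate_count, iterate_count, Nat.cast_add]
  congr 1
  · rw [Pi.single_apply]
    split_ifs with h4 h5 h5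
    · simp
    · exact absurd h4.symm h5
    · exact absurd h5.symm h4
    · simp
  · rw [Pi.single_apply]
    split_ifs with h4 h5 h5
    · simp
    · exact absurd h4.symm h5
    · exact absurd h5.symm h4
    · simp

theorem homotopic_vec (R : Rotation G) {u v : V} {p q : G.Walk u v} (h : R.Homotopic p q) :
    vec p + vec q ∈ LinearMap.range (d2 R) := by
  induction h with
  | refl p => rw [fun_add_self]; exact zero_mem _
  | symm _ ih => rwa [add_comm] at ih
  | @trans u v p q r _ _ ih1 ih2 =>
    have h3 := add_mem ih1 ih2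
    have : vec p + vec q + (vec q + vec r) = vec p + vec r := by
      rw [add_assoc, ← add_assoc (vec q), fun_add_self, zero_add]
    rwa [this] at h3
  | @append u v w p p' q q' _ _ ih1 ih2 =>
    rw [vec_append, vec_append]
    have h3 := add_mem ih1 ih2
    have : vec p + vec p' + (vec q + vec q') = vec p + vec q + (vec p' + vec q') := by abel
    rwa [this] at h3
  | @spur u v h =>
    have : vec (Walk.cons h (Walk.cons h.symm Walk.nil)) = 0 := by
      rw [vec_cons, vec_cons, vec_nil, add_zero]
      have : ev h.symm = ev h := by rw [ev, ev, add_comm]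
      rw [this, fun_add_self]
    rw [this, vec_nil, add_zero]
    exact zero_mem _
  | facial p d hp =>
    rw [vec_nil, add_zero, vec_facial R p d hp]
    exact ⟨_, rfl⟩

theorem homotopic_length (R : Rotation G) (hR : R.EvenFaced) {u v : V} {p q : G.Walk u v}
    (h : R.Homotopic p q) : ((p.length : ℕ) : kk) = q.length := by
  induction h with
  | refl p => rfl
  | symm _ ih => exact ih.symm
  | trans _ _ ih1 ih2 => exact ih1.trans ih2
  | append _ _ ih1 ih2 =>
    rw [Walk.length_append, Walk.length_append, Nat.cast_add, Nat.cast_add, ih1, ih2]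
  | spur h =>
    rw [Walk.length_cons, Walk.length_cons, Walk.length_nil]
    decide
  | facial p d hp =>
    rw [← Walk.length_darts, hp, List.length_iterate]
    rw [ZMod.natCast_eq_zero_iff_even.2 (hR d)]
    rfl

theorem contractible_even (R : Rotation G) (hR : R.EvenFaced) {u : V} {p : G.Walk u u}
    (h : R.Contractible p) : Even p.length := by
  have := homotopic_length R hR h
  rw [← ZMod.natCast_eq_zero_iff_even, this]
  rfl

theorem contractible_vec (R : Rotation G) {u : V} {p : G.Walk u u}
    (h : R.Contractible p) : vec p ∈ LinearMap.range (d2 R) := by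
  have := homotopic_vec R h
  rwa [vec_nil, add_zero] at this

end Pool.Agent.W2helper89.EF
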